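import Mathlib

set_option autoImplicit false

/-!
# MP_1fa864_co: upper minus lower signed domination in trees

For every tree `T` of order `n` the difference of the upper signed domination number and the signed
domination number is at most `4 n / 7`; for `n ≥ 2` it is at most `(4 n - 8) / 7`.

The proof is a discharging argument. Fix a minimal signed dominating function `f` and a signed
dominating function `g`. The type of a vertex `v` records `f v`, `g v` and whether
`f(N[v]) ≤ 2`. An antisymmetric potential `pot` on the types satisfies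
`7 (f v - g v) ≤ 4 deg v - 4 + ∑_{u ∼ v} pot (type v) (type u)` at every vertex, and the
sum of this inequality over all vertices is the assertion.
-/

namespace Pool.Agent.Results.MP_1fa864_co.FourSevenths

open Finset

section defs

variable {V : Type} [Fintype V] [DecidableEq V] (G : SimpleGraph V) [DecidableRel G.Adj]

/-- `f(N[v])`, the sum of `f` over the closed neighbourhood of `v`. -/
def closedSum (f : V → ℤ) (v : V) : ℤ := f v + ∑ u ∈ G.neighborFinset v, f u

/-- The weight `f(V)`. -/
def weight (f : V → ℤ) : ℤ := ∑ v, f v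

/-- Signed dominating functions: maps `f : V → {-1, 1}` with `f(N[v]) ≥ 1` for every `v`. -/
def IsSDF (f : V → ℤ) : Prop := (∀ v, f v = -1 ∨ f v = 1) ∧ ∀ v, 1 ≤ closedSum G f v

/-- Minimal signed dominating functions: there is no other signed dominating function `g` with
`g v ≤ f v` for all `v`. -/
def IsMinimalSDF (f : V → ℤ) : Prop :=
  IsSDF G f ∧ ∀ g : V → ℤ, IsSDF G g → (∀ v, g v ≤ f v) → g = f

/-- The signed domination number: the minimum weight of a signed dominating function. -/
noncomputable def signedDom : ℤ := sInf {w : ℤ | ∃ f : V → ℤ, IsSDF G f ∧ weight f = w}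

/-- The upper signed domination number: the maximum weight of a minimal signed dominating
function. -/
noncomputable def upperSignedDom : ℤ := sSup {w : ℤ | ∃ f : V → ℤ, IsMinimalSDF G f ∧ weight f = w}

end defs

/-! ### Types and the potential -/

/-- The value of `f` for a type. -/
def fv (s : Fin 8) : ℤ := if 4 ≤ s.val then 1 else -1

/-- The value of `g` for a type. -/
def gv (s : Fin 8) : ℤ := if s.val / 2 % 2 = 1 then 1 else -1

/-- The antisymmetric potential. -/
def pot : Fin 8 → Fin 8 → ℤ := ![
  ![0, 0, 0, 0, 0, 0, 0, 0],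
  ![0, 0, 0, 0, 0, 0, 0, 0],
  ![0, 0, 0, 0, 0, -6, 0, -2],
  ![0, 0, 0, 0, 0, -6, 0, -2],
  ![0, 0, 0, 0, 0, 0, 4, 6],
  ![0, 0, 6, 6, 0, 0, 4, 4],
  ![0, 0, 0, 0, -4, -4, 0, 0],
  ![0, 0, 2, 2, -6, -4, 0, 0]]

lemma pot_antisymm : ∀ s t : Fin 8, pot s t = - pot t s := by decide

set_option linter.unusedSectionVars false

variable {V : Type} [Fintype V] [DecidableEq V] (G : SimpleGraph V) [DecidableRel G.Adj]

/-- The type of a vertex. -/
def typ (f g : V → ℤ) (v : V) : Fin 8 :=
  ⟨(if f v = 1 then 4 else 0) + (if g v = 1 then 2 else 0) +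
    (if closedSum G f v ≤ 2 then 1 else 0), by split_ifs <;> norm_num⟩

lemma sum_antisymm (F : V → V → ℤ) (h : ∀ u v, F u v = - F v u) :
    ∑ v, ∑ u ∈ G.neighborFinset v, F v u = 0 := by
  have h1 : ∑ v, ∑ u ∈ G.neighborFinset v, F v u = ∑ v, ∑ u, if G.Adj v u then F v u else 0 := by
    apply Finset.sum_congr rfl
    intro v _
    rw [SimpleGraph.neighborFinset_eq_filter, Finset.sum_filter]
  have h2 : ∑ v, ∑ u, (if G.Adj v u then F v u else 0) =
      - ∑ v, ∑ u, (if G.Adj v u then F v u else 0) := by
    conv_lhs => rw [Finset.sum_comm]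
    rw [← Finset.sum_neg_distrib]
    apply Finset.sum_congr rfl
    intro u _
    rw [← Finset.sum_neg_distrib]
    apply Finset.sum_congr rfl
    intro v _
    simp only [G.adj_comm v u]
    split_ifs
    · exact h v u
    · simp
  rw [h1]
  omega

/-- Grouping a sum over a set by types. -/
lemma sum_by_type (N : Finset V) (τ : V → Fin 8) (F : Fin 8 → ℤ) :
    ∑ u ∈ N, F (τ u) = ∑ s : Fin 8, ((N.filter fun u => τ u = s).card : ℤ) * F s := by
  rw [← Finset.sum_fiberwise N τ (fun u => F (τ u))]
  apply Finset.sum_congr rfl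
  intro s _
  rw [Finset.sum_congr rfl (g := fun _ => F s)]
  · rw [Finset.sum_const, nsmul_eq_mul]
  · intro u hu
    rw [(Finset.mem_filter.1 hu).2]

lemma fv_typ {f g : V → ℤ} (hf : ∀ v, f v = -1 ∨ f v = 1) (v : V) : fv (typ G f g v) = f v := by
  have h4 : (4 ≤ (typ G f g v).val) ↔ f v = 1 := by
    simp only [typ]
    constructor
    · intro h
      by_contra h1
      rw [if_neg h1] at h
      split_ifs at h <;> omega
    · intro h
      rw [if_pos h]
      omega
  rcases hf v with h | h
  · rw [fv, if_neg (by rw [h4, h]; norm_num), h]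
  · rw [fv, if_pos (h4.2 h), h]

lemma gv_typ {f g : V → ℤ} (hg : ∀ v, g v = -1 ∨ g v = 1) (v : V) : gv (typ G f g v) = g v := by
  have h4 : ((typ G f g v).val / 2 % 2 = 1) ↔ g v = 1 := by
    simp only [typ]
    constructor
    · intro h
      by_contra h1
      rw [if_neg h1] at h
      split_ifs at h <;> omega
    · intro h
      rw [if_pos h]
      split_ifs <;> omega
  rcases hg v with h | h
  · rw [gv, if_neg (by rw [h4, h]; norm_num), h]
  · rw [gv, if_pos (h4.2 h), h]

lemma tight_typ (f g : V → ℤ) (v : V) :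
    (typ G f g v).val % 2 = 1 ↔ closedSum G f v ≤ 2 := by
  simp only [typ]
  constructor
  · intro h
    by_contra h1
    rw [if_neg h1] at h
    split_ifs at h <;> omega
  · intro h
    rw [if_pos h]
    split_ifs <;> norm_num

/-- In a minimal signed dominating function every vertex of value `1` has a vertex `u` in its closed
neighbourhood with `f(N[u]) ≤ 2`. -/
lemma exists_tight {f : V → ℤ} (hf : IsMinimalSDF G f) {v : V} (hv : f v = 1) :
    closedSum G f v ≤ 2 ∨ ∃ u ∈ G.neighborFinset v, closedSum G f u ≤ 2 := by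
  by_contra hcon
  push Not at hcon
  obtain ⟨h1, h2⟩ := hcon
  have hg : IsSDF G (Function.update f v (-1)) := by
    refine ⟨fun u => ?_, fun u => ?_⟩
    · by_cases h : u = v
      · subst h; left; simp
      · rw [Function.update_of_ne h]; exact hf.1.1 u
    · have h3 := hf.1.2 u
      by_cases h : u = v
      · subst h
        have h4 : closedSum G (Function.update f u (-1)) u = closedSum G f u - 2 := by
          unfold closedSum
          rw [Function.update_self, hv, Finset.sum_update_of_notMem (by simp)]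
          ring
        omega
      · by_cases h' : v ∈ G.neighborFinset u
        · have h5 : u ∈ G.neighborFinset v := by
            rw [SimpleGraph.mem_neighborFinset] at h' ⊢
            exact h'.symm
          have h6 := h2 u h5
          have h4 : closedSum G (Function.update f v (-1)) u = closedSum G f u - 2 := by
            unfold closedSum
            rw [Function.update_of_ne h, Finset.sum_update_of_mem h']
            have h7 := Finset.add_sum_erase (G.neighborFinset u) f h'
            rw [Finset.sdiff_singleton_eq_erase]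
            omega
          omega
        · have h4 : closedSum G (Function.update f v (-1)) u = closedSum G f u := by
            unfold closedSum
            rw [Function.update_of_ne h, Finset.sum_update_of_notMem h']
          omega
  have h3 := hf.2 _ hg (fun u => by
    by_cases h : u = v
    · subst h; rw [Function.update_self, hv]; norm_num
    · rw [Function.update_of_ne h])
  have h4 := congrFun h3 v
  rw [Function.update_self, hv] at h4
  norm_num at h4

/-- The local inequality. -/
lemma local_ineq {f g : V → ℤ} (hf : IsMinimalSDF G f) (hg : IsSDF G g) (v : V)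
    (hdeg : 1 ≤ G.degree v) :
    7 * (f v - g v) ≤ 4 * (G.degree v : ℤ) - 4 +
      ∑ u ∈ G.neighborFinset v, pot (typ G f g v) (typ G f g u) := by
  set τ := typ G f g with hτ
  set N := G.neighborFinset v with hN
  let n : Fin 8 → ℕ := fun s => (N.filter fun u => τ u = s).card
  have hsum : ∀ F : Fin 8 → ℤ, ∑ u ∈ N, F (τ u) = ∑ s : Fin 8, (n s : ℤ) * F s :=
    fun F => sum_by_type N τ F
  have h1 : (G.degree v : ℤ) = ∑ s : Fin 8, (n s : ℤ) * 1 := by
    rw [← hsum (fun _ => 1), Finset.sum_const, ← SimpleGraph.card_neighborFinset_eq_degree]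
    simp [hN]
  have h2 : closedSum G f v = f v + ∑ s : Fin 8, (n s : ℤ) * fv s := by
    rw [← hsum fv, closedSum]
    congr 1
    exact Finset.sum_congr rfl fun u _ => (fv_typ G hf.1.1 u).symm
  have h3 : closedSum G g v = g v + ∑ s : Fin 8, (n s : ℤ) * gv s := by
    rw [← hsum gv, closedSum]
    congr 1
    exact Finset.sum_congr rfl fun u _ => (gv_typ G hg.1 u).symm
  have h4 := hf.1.2 v
  have h5 := hg.2 v
  have h6 : f v = 1 → closedSum G f v ≤ 2 ∨ ∃ s : Fin 8, s.val % 2 = 1 ∧ 1 ≤ n s := by
    intro h
    rcases exists_tight G hf h with h | ⟨u, hu, h⟩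
    · exact Or.inl h
    · right
      refine ⟨τ u, (tight_typ G f g u).2 h, Finset.card_pos.2 ⟨u, ?_⟩⟩
      rw [Finset.mem_filter]
      exact ⟨hu, rfl⟩
  have h7 : f v = 1 → closedSum G f v ≤ 2 ∨ 1 ≤ n 1 + n 3 + n 5 + n 7 := by
    intro h
    rcases h6 h with h | ⟨s, hs, h⟩
    · exact Or.inl h
    · right
      fin_cases s <;> simp at hs h ⊢ <;> omega
  have h8 : f v = fv (τ v) := (fv_typ G hf.1.1 v).symm
  have h9 : g v = gv (τ v) := (gv_typ G hg.1 v).symm
  have h10 := tight_typ G f g v
  rw [← hτ] at h10
  rw [hsum (pot (τ v))]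
  simp only [Fin.sum_univ_eight] at h1 h2 h3 ⊢
  generalize G.degree v = d at *
  generalize closedSum G f v = cf at *
  generalize closedSum G g v = cg at *
  generalize τ v = t at *
  generalize f v = x at *
  generalize g v = y at *
  generalize n 0 = n0 at *
  generalize n 1 = n1 at *
  generalize n 2 = n2 at *
  generalize n 3 = n3 at *
  generalize n 4 = n4 at *
  generalize n 5 = n5 at *
  generalize n 6 = n6 at *
  generalize n 7 = n7 at *
  clear h6 hsum
  fin_cases t <;> simp [fv, gv, pot] at * <;> omega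

/-! ### The numbers are attained -/

/-- The constant function `1` is a signed dominating function. -/
lemma isSDF_one : IsSDF G (fun _ => 1) := by
  refine ⟨fun _ => Or.inr rfl, fun v => ?_⟩
  have h : (0 : ℤ) ≤ ∑ u ∈ G.neighborFinset v, 1 := Finset.sum_nonneg fun _ _ => by norm_num
  change 1 ≤ (1 : ℤ) + ∑ u ∈ G.neighborFinset v, (1 : ℤ)
  omega

omit [DecidableEq V] in
lemma weight_abs {f : V → ℤ} (hf : ∀ v, f v = -1 ∨ f v = 1) :
    -(Fintype.card V : ℤ) ≤ weight f ∧ weight f ≤ Fintype.card V := by
  constructor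
  · have : ∑ _v : V, (-1 : ℤ) ≤ weight f :=
      Finset.sum_le_sum fun v _ => by rcases hf v with h | h <;> omega
    simpa using this
  · have : weight f ≤ ∑ _v : V, (1 : ℤ) :=
      Finset.sum_le_sum fun v _ => by rcases hf v with h | h <;> omega
    simpa using this

/-- The signed domination number is the minimum weight of a signed dominating function. -/
theorem signedDom_isLeast :
    IsLeast {w : ℤ | ∃ f : V → ℤ, IsSDF G f ∧ weight f = w} (signedDom G) := by
  have hb : BddBelow {w : ℤ | ∃ f : V → ℤ, IsSDF G f ∧ weight f = w} := by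
    refine ⟨-(Fintype.card V : ℤ), ?_⟩
    rintro w ⟨f, hf, rfl⟩
    exact (weight_abs hf.1).1
  exact ⟨Int.csInf_mem ⟨_, _, isSDF_one G, rfl⟩ hb, fun w hw => csInf_le hb hw⟩

lemma exists_minimal : ∃ f : V → ℤ, IsMinimalSDF G f := by
  obtain ⟨⟨f, hf, hw⟩, hmin⟩ := signedDom_isLeast G
  refine ⟨f, hf, fun g hg hle => ?_⟩
  have h1 := hmin ⟨g, hg, rfl⟩
  rw [← hw] at h1
  have h2 : weight g = weight f := le_antisymm (Finset.sum_le_sum fun v _ => hle v) h1
  have h3 := (Finset.sum_eq_sum_iff_of_le (fun v (_ : v ∈ univ) => hle v)).1 h2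
  exact funext fun v => h3 v (Finset.mem_univ v)

/-- The upper signed domination number is the maximum weight of a minimal signed dominating
function. -/
theorem upperSignedDom_isGreatest :
    IsGreatest {w : ℤ | ∃ f : V → ℤ, IsMinimalSDF G f ∧ weight f = w} (upperSignedDom G) := by
  have hb : BddAbove {w : ℤ | ∃ f : V → ℤ, IsMinimalSDF G f ∧ weight f = w} := by
    refine ⟨(Fintype.card V : ℤ), ?_⟩
    rintro w ⟨f, hf, rfl⟩
    exact (weight_abs hf.1.1).2
  obtain ⟨f, hf⟩ := exists_minimal G
  exact ⟨Int.csSup_mem ⟨_, f, hf, rfl⟩ hb, fun w hw => le_csSup hb hw⟩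

/-! ### The theorem -/

theorem main_ineq (hT : G.IsTree) (h2 : 2 ≤ Fintype.card V) {f g : V → ℤ}
    (hf : IsMinimalSDF G f) (hg : IsSDF G g) :
    7 * (weight f - weight g) ≤ 4 * (Fintype.card V : ℤ) - 8 := by
  have hnt : Nontrivial V := Fintype.one_lt_card_iff_nontrivial.1 h2
  have hdeg : ∀ v, 1 ≤ G.degree v := fun v =>
    hT.connected.preconnected.degree_pos_of_nontrivial v
  have h3 := Finset.sum_le_sum fun v (_ : v ∈ univ) => local_ineq G hf hg v (hdeg v)
  rw [Finset.sum_add_distrib, Finset.sum_sub_distrib, ← Finset.mul_sum, ← Finset.mul_sum,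
    Finset.sum_sub_distrib,
    sum_antisymm G (fun v u => pot (typ G f g v) (typ G f g u)) (fun u v => pot_antisymm _ _)] at h3
  have h4 := G.sum_degrees_eq_twice_card_edges
  have h5 := hT.card_edgeFinset
  have h6 : ∑ v, (G.degree v : ℤ) = 2 * (G.edgeFinset.card : ℤ) := by exact_mod_cast h4
  have h7 : (G.edgeFinset.card : ℤ) + 1 = Fintype.card V := by exact_mod_cast h5
  rw [h6] at h3
  simp only [Finset.sum_const, Finset.card_univ, nsmul_eq_mul] at h3
  unfold weight
  linarith

theorem bound (hT : G.IsTree) (h2 : 2 ≤ Fintype.card V) :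
    7 * (upperSignedDom G - signedDom G) ≤ 4 * (Fintype.card V : ℤ) - 8 := by
  obtain ⟨⟨f, hf, hwf⟩, -⟩ := upperSignedDom_isGreatest G
  obtain ⟨⟨g, hg, hwg⟩, -⟩ := signedDom_isLeast G
  rw [← hwf, ← hwg]
  exact main_ineq G hT h2 hf hg

theorem bound_one (h1 : Fintype.card V = 1) : upperSignedDom G = signedDom G := by
  obtain ⟨⟨f, hf, hwf⟩, -⟩ := upperSignedDom_isGreatest G
  obtain ⟨⟨g, hg, hwg⟩, -⟩ := signedDom_isLeast G
  have hsub : Subsingleton V := Fintype.card_le_one_iff_subsingleton.1 h1.le
  have key : ∀ h : V → ℤ, IsSDF G h → ∀ v, h v = 1 := by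
    intro h hh v
    have h3 := hh.2 v
    have h4 : G.neighborFinset v = ∅ := by
      rw [Finset.eq_empty_iff_forall_notMem]
      intro u hu
      rw [SimpleGraph.mem_neighborFinset] at hu
      exact G.ne_of_adj hu (Subsingleton.elim _ _)
    unfold closedSum at h3
    rw [h4, Finset.sum_empty] at h3
    rcases hh.1 v with h5 | h5
    · omega
    · exact h5
  rw [← hwf, ← hwg]
  unfold weight
  exact Finset.sum_congr rfl fun v _ => by rw [key f hf.1 v, key g hg v]

/-- For every tree `T` of order `n` one has `(Γ_s(T) - γ_s(T)) / n ≤ 4 / 7`. For `n ≥ 2` one even has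
`Γ_s(T) - γ_s(T) ≤ (4 n - 8) / 7`. -/
theorem result (V : Type) [Fintype V] [DecidableEq V] (T : SimpleGraph V) [DecidableRel T.Adj]
    (hT : T.IsTree) :
    (((upperSignedDom T - signedDom T : ℤ) : ℝ) / (Fintype.card V : ℝ) ≤ 4 / 7) ∧
    (2 ≤ Fintype.card V →
      7 * (upperSignedDom T - signedDom T) ≤ 4 * (Fintype.card V : ℤ) - 8) := by
  refine ⟨?_, bound T hT⟩
  have hpos : 0 < Fintype.card V := Fintype.card_pos_iff.2 hT.connected.nonempty
  have hpos' : (0 : ℝ) < Fintype.card V := by exact_mod_cast hpos
  rw [div_le_div_iff₀ hpos' (by norm_num)]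
  rcases Nat.lt_or_ge (Fintype.card V) 2 with h | h
  · have h1 : Fintype.card V = 1 := by omega
    rw [bound_one T h1, sub_self]
    simp
  · have h2 := bound T hT h
    have h3 : (7 : ℝ) * ((upperSignedDom T - signedDom T : ℤ) : ℝ) ≤
        4 * (Fintype.card V : ℝ) - 8 := by exact_mod_cast h2
    linarith

end Pool.Agent.Results.MP_1fa864_co.FourSevenths
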